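import Mathlib
import Pool.Agent.V11265.HC.Fin
import Pool.Agent.Y911.AA.Main

/-!
# The `H`-inequality for almost all abc triples, ordered by radical, of all heights

For every `M > 1/3`, in particular for `M = 1 + ε`, all but `C X ^ (2/3 - ν)` of the
`∼ κ X ^ (2/3)` admissible triples (up to exchanging `a` and `b`) with `γ (abc) ≤ X` satisfy
`c < H (abc) ^ M`; there is no restriction on the size of `c`. For `0 ≤ M ≤ 1/3` no admissible
triple satisfies it.

The triples with `c ≥ γ (abc) ^ M'`, `M'` between `1/3` and `M`, are few by the starting library's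
theorem on Oesterlé's inequality; for the others the mean value of `∏_{p ∣ n} (log X) / p` over
`n ≤ X ^ M'` is `X ^ o(1)`, and two of the three members of an exceptional triple determine it.
-/

set_option autoImplicit false

namespace Pool.Agent.Results.MP_14cf73_nt.AlmostAllByRadical

open Filter Topology

/-- the radical `γ (n)`: the product of the distinct primes dividing `n` -/
def gam (n : ℕ) : ℕ := ∏ p ∈ n.primeFactors, p

/-- `H (n) = γ (n) / (log γ (n)) ^ ω (n)`, with `H (1) = 1` -/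
noncomputable def H (n : ℕ) : ℝ := (gam n : ℝ) / (Real.log (gam n)) ^ n.primeFactors.card

/-- all admissible triples `(a, b, a + b)` with `a ≤ b`, written `(a, b)`, with
`γ (abc) ≤ X`; there is no condition on the size of `c = a + b` -/
def triples (X : ℝ) : Set (ℕ × ℕ) :=
  {p | 0 < p.1 ∧ p.1 ≤ p.2 ∧ Nat.Coprime p.1 p.2 ∧ (gam (p.1 * p.2 * (p.1 + p.2)) : ℝ) ≤ X}

/-- those among them with `c ≥ H (abc) ^ M` -/
def exceptions (M X : ℝ) : Set (ℕ × ℕ) :=
  {p | p ∈ triples X ∧ H (p.1 * p.2 * (p.1 + p.2)) ^ M ≤ ((p.1 + p.2 : ℕ) : ℝ)}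

/-- **The inequality `c < H (abc) ^ M` holds for almost all triples exactly for `M > 1/3`.**
(1) The number of all admissible triples with `γ (abc) ≤ X` is finite and asymptotic to
`κ X ^ (2/3)`, `κ > 0`. (2) For every `M > 1/3` at most `C X ^ (2/3 - ν)` of them have
`c ≥ H (abc) ^ M`. (3) For `0 ≤ M ≤ 1/3` all of them do. -/
theorem result :
    (∀ X : ℝ, (triples X).Finite) ∧
    (∃ κ : ℝ, 0 < κ ∧
      Tendsto (fun X : ℝ => ((triples X).ncard : ℝ) / X ^ ((2 : ℝ) / 3)) atTop (𝓝 κ)) ∧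
    (∀ M : ℝ, 1 / 3 < M → ∃ ν C : ℝ, 0 < ν ∧ 0 < C ∧ ∀ X : ℝ, 1 ≤ X →
      ((exceptions M X).ncard : ℝ) ≤ C * X ^ (2 / 3 - ν)) ∧
    (∀ M : ℝ, 0 ≤ M → M ≤ 1 / 3 → ∀ X : ℝ, exceptions M X = triples X) := by
  obtain ⟨κ, hκ, h1, h2⟩ := Pool.Agent.Y911.AA.main
  refine ⟨Pool.Agent.Y911.AA.triples_finite', ⟨κ, hκ, h1⟩, fun M hM => ?_, fun M hM0 hM X => ?_⟩
  · have hfin : ∀ X : ℝ, (triples X).Finite := Pool.Agent.Y911.AA.triples_finite'
    set M' : ℝ := (M + 1 / 3) / 2 with hM'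
    have hM'1 : 1 / 3 < M' := by linarith
    have hM'2 : M' < M := by linarith
    have hMpos : 0 < M := by linarith
    obtain ⟨ν, C, hν, hC, h3⟩ := h2 M' hM'1
    set μ : ℝ := (2 / 3 - 2 * M' / (3 * M)) / 2 with hμ
    have hμ0 : 0 < μ := by
      have : 2 * M' / (3 * M) < 2 / 3 := by
        rw [div_lt_div_iff₀ (by positivity) (by norm_num)]
        linarith
      rw [hμ]
      linarith
    obtain ⟨C', hC', h4⟩ := Pool.Agent.V11265.HC.small 1 M' M μ (by norm_num) (by linarith)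
      hMpos hμ0
    refine ⟨min ν μ, C + C', lt_min hν hμ0, by positivity, fun X hX => ?_⟩
    have hX0 : 0 < X := by linarith
    set S : Set (ℕ × ℕ) := {p | p ∈ exceptions M X ∧ ((p.1 + p.2 : ℕ) : ℝ) < X ^ M'} with hS
    have h5 := h4 X hX S (by
      rintro p ⟨⟨⟨a1, a2, a3, a4⟩, a5⟩, a6⟩
      refine ⟨a1, by omega, a3, ?_, a6.le, a5⟩
      rw [one_mul]
      exact Real.log_le_log (by exact_mod_cast Pool.Agent.V11265.HC.gam_pos _) a4)
    have hsub : exceptions M X ⊆
        Pool.Agent.Y911.AA.viol M' X ∪ S := by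
      rintro p ⟨hp1, hp2⟩
      rcases lt_or_ge ((p.1 + p.2 : ℕ) : ℝ) (X ^ M') with h | h
      · exact Or.inr ⟨⟨hp1, hp2⟩, h⟩
      · refine Or.inl ⟨hp1, le_trans ?_ h⟩
        exact Real.rpow_le_rpow (Nat.cast_nonneg _) hp1.2.2.2 (by linarith)
    have hvfin : (Pool.Agent.Y911.AA.viol M' X).Finite :=
      (hfin X).subset fun p hp => hp.1
    have h6 : ((exceptions M X).ncard : ℝ) ≤
        ((Pool.Agent.Y911.AA.viol M' X).ncard : ℝ) + S.ncard := by
      exact_mod_cast (Set.ncard_le_ncard hsub (hvfin.union h5.1)).trans (Set.ncard_union_le _ _)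
    have h7 := h3 X hX
    have h8 : X ^ (2 / 3 - ν) ≤ X ^ (2 / 3 - min ν μ) :=
      Real.rpow_le_rpow_of_exponent_le hX (by linarith [min_le_left ν μ])
    have h9 : X ^ (2 * M' / (3 * M) + μ) ≤ X ^ (2 / 3 - min ν μ) :=
      Real.rpow_le_rpow_of_exponent_le hX (by
        have := min_le_right ν μ
        rw [hμ] at this ⊢
        linarith)
    calc ((exceptions M X).ncard : ℝ) ≤ C * X ^ (2 / 3 - ν) + C' * X ^ (2 * M' / (3 * M) + μ) :=
          h6.trans (add_le_add h7 h5.2)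
      _ ≤ C * X ^ (2 / 3 - min ν μ) + C' * X ^ (2 / 3 - min ν μ) := by gcongr
      _ = _ := by ring
  · ext p
    refine ⟨fun h => h.1, fun h => ⟨h, ?_⟩⟩
    exact Pool.Agent.V11265.HC.H_rpow_le h.1 h.2.1 h.2.2.1 hM0 hM

end Pool.Agent.Results.MP_14cf73_nt.AlmostAllByRadical
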