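import Mathlib
import Pool.Agent.V11265.HC.Fin

/-!
# The exceptional set of the `H`-inequality, ordered by height

For every `M > 0` and `δ > 0` the number of admissible triples with `c ≤ X` that violate
`c < H (abc) ^ M` is `O (X ^ (2 / (3 M) + δ))`. With `M = 1 + ε` this shows that the inequality
`c < H (abc) ^ (1 + ε)` fails for `O (X ^ (2/3))` of the `∼ (3 / π ^ 2) X ^ 2` ordered admissible
triples with `c ≤ X`.
-/

set_option autoImplicit false

namespace Pool.Agent.Results.MP_14cf73_nt.ExceptionsByHeight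

/-- the radical `γ (n)`: the product of the distinct primes dividing `n` -/
def gam (n : ℕ) : ℕ := ∏ p ∈ n.primeFactors, p

/-- `H (n) = γ (n) / (log γ (n)) ^ ω (n)`, with `H (1) = 1` -/
noncomputable def H (n : ℕ) : ℝ := (gam n : ℝ) / (Real.log (gam n)) ^ n.primeFactors.card

/-- the admissible triples `(a, b, a + b)`, written `(a, b)`, with `c = a + b ≤ X` and
`c ≥ H (abc) ^ M` -/
def exceptions (M X : ℝ) : Set (ℕ × ℕ) :=
  {p | 0 < p.1 ∧ 0 < p.2 ∧ Nat.gcd (Nat.gcd p.1 p.2) (p.1 + p.2) = 1 ∧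
    ((p.1 + p.2 : ℕ) : ℝ) ≤ X ∧ H (p.1 * p.2 * (p.1 + p.2)) ^ M ≤ ((p.1 + p.2 : ℕ) : ℝ)}

/-- For all `M, δ > 0` there is `C` such that for every `X ≥ 1` there are at most
`C X ^ (2 / (3 M) + δ)` admissible triples with `c ≤ X` and `c ≥ H (abc) ^ M`. -/
theorem result (M δ : ℝ) (hM : 0 < M) (hδ : 0 < δ) : ∃ C : ℝ, 0 < C ∧ ∀ X : ℝ, 1 ≤ X →
    (exceptions M X).Finite ∧ ((exceptions M X).ncard : ℝ) ≤ C * X ^ (2 / (3 * M) + δ) := by
  obtain ⟨C, hC, h⟩ := Pool.Agent.V11265.HC.small 3 1 M δ (by norm_num) (by norm_num) hM hδ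
  refine ⟨C, hC, fun X hX => ?_⟩
  have h1 := h X hX (exceptions M X) (by
    rintro p ⟨h1, h2, h3, h4, h5⟩
    have hg : Nat.Coprime p.1 p.2 := by
      have : Nat.gcd p.1 p.2 ∣ Nat.gcd (Nat.gcd p.1 p.2) (p.1 + p.2) :=
        Nat.dvd_gcd dvd_rfl (dvd_add (Nat.gcd_dvd_left _ _) (Nat.gcd_dvd_right _ _))
      rw [h3] at this
      exact Nat.dvd_one.mp this
    refine ⟨h1, h2, hg, ?_, by simpa using h4, h5⟩
    have h6 := Pool.Agent.V11265.HC.gam_lt h1 h2
    have hc : (0 : ℝ) < ((p.1 + p.2 : ℕ) : ℝ) := by exact_mod_cast (by omega : 0 < p.1 + p.2)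
    have hg0 : (0 : ℝ) < Pool.Agent.V11265.HC.gam (p.1 * p.2 * (p.1 + p.2)) := by
      exact_mod_cast Pool.Agent.V11265.HC.gam_pos _
    calc Real.log (Pool.Agent.V11265.HC.gam (p.1 * p.2 * (p.1 + p.2)))
        ≤ Real.log (((p.1 + p.2 : ℕ) : ℝ) ^ 3) :=
          Real.log_le_log hg0 (by exact_mod_cast h6.le)
      _ = 3 * Real.log ((p.1 + p.2 : ℕ) : ℝ) := by
          rw [Real.log_pow]
          norm_num
      _ ≤ 3 * Real.log X := by
          have := Real.log_le_log hc h4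
          linarith)
  have e : 2 * 1 / (3 * M) + δ = 2 / (3 * M) + δ := by ring
  rw [e] at h1
  exact h1

end Pool.Agent.Results.MP_14cf73_nt.ExceptionsByHeight
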