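import Mathlib
import Pool.Agent.V11265.HC.Low3

/-!
# Admissible triples with small `H (abc)`

For every `κ < 2 + 2 log (3/2) = 2.81...` there are infinitely many admissible triples with
`c > H exp (κ log H / log log H)`, where `H = max (H (abc), e ^ e)`. (Known before: `κ = 2`.)

The primes `p ≤ y` are distributed over `A`, `B`, `C`; by the pigeonhole principle
`A u + B v = C w` has a solution with `A u, B v, C w ≪ (∏_{p ≤ y} p) ^ (1/2)`; the loss from a
common factor of the three members is compensated by the gain in height, and the size of `H` is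
computed with the prime number theorem in the form `π (y) log y - θ (y) ∼ y / log y`.
-/

set_option autoImplicit false

namespace Pool.Agent.Results.MP_14cf73_nt.ManyTriplesSmallH

/-- the radical `γ (n)`: the product of the distinct primes dividing `n` -/
def gam (n : ℕ) : ℕ := ∏ p ∈ n.primeFactors, p

/-- `H (n) = γ (n) / (log γ (n)) ^ ω (n)`, with `H (1) = 1` -/
noncomputable def H (n : ℕ) : ℝ := (gam n : ℝ) / (Real.log (gam n)) ^ n.primeFactors.card

/-- `max (H (abc), e ^ e)` for the triple `(a, b, a + b)` -/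
noncomputable def Hm (a b : ℕ) : ℝ := max (H (a * b * (a + b))) (Real.exp (Real.exp 1))

/-- For every `κ < 2 + 2 log (3/2)` there are infinitely many admissible triples `(a, b, c)` with
`c > H exp (κ log H / log log H)`, `H = max (H (abc), e ^ e)`. -/
theorem result (κ : ℝ) (hκ : κ < 2 + 2 * Real.log (3 / 2)) :
    {t : ℕ × ℕ × ℕ | 0 < t.1 ∧ 0 < t.2.1 ∧ t.1 + t.2.1 = t.2.2 ∧
      Nat.gcd (Nat.gcd t.1 t.2.1) t.2.2 = 1 ∧
      Hm t.1 t.2.1 * Real.exp (κ * (Real.log (Hm t.1 t.2.1) / Real.log (Real.log (Hm t.1 t.2.1)))) <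
        (t.2.2 : ℝ)}.Infinite := by
  intro hfin
  have hb := (hfin.image (fun t : ℕ × ℕ × ℕ => t.2.2)).bddAbove
  obtain ⟨M, hM⟩ := hb
  have hκ' : max κ 1 < 2 + 2 * Real.log (3 / 2) := by
    refine max_lt hκ ?_
    have : 0 ≤ Real.log (3 / 2) := Real.log_nonneg (by norm_num)
    linarith
  obtain ⟨a, b, ha, hb, hab, h1, h2⟩ :=
    Pool.Agent.V11265.HC.low (le_max_right κ 1) hκ' (Real.log ((M + 1 : ℕ) : ℝ))
  have hcr : (0 : ℝ) < ((a + b : ℕ) : ℝ) := by exact_mod_cast (by omega : 0 < a + b)
  have hlt : M + 1 < a + b := by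
    have := (Real.log_lt_log_iff (by exact_mod_cast Nat.succ_pos M) hcr).mp h1
    exact_mod_cast this
  have hmem : (a, b, a + b) ∈ {t : ℕ × ℕ × ℕ | 0 < t.1 ∧ 0 < t.2.1 ∧ t.1 + t.2.1 = t.2.2 ∧
      Nat.gcd (Nat.gcd t.1 t.2.1) t.2.2 = 1 ∧
      Hm t.1 t.2.1 * Real.exp (κ * (Real.log (Hm t.1 t.2.1) / Real.log (Real.log (Hm t.1 t.2.1)))) <
        (t.2.2 : ℝ)} := by
    refine ⟨ha, hb, rfl, ?_, ?_⟩
    · have e : Nat.gcd a b = 1 := hab
      simp only
      rw [e, Nat.gcd_one_left]
    · simp only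
      have hHm : Hm a b = max (Pool.Agent.V11265.HC.H (a * b * (a + b)))
        (Real.exp (Real.exp 1)) := rfl
      rw [← hHm] at h2
      have hge : Real.exp (Real.exp 1) ≤ Hm a b := le_max_right _ _
      have hpos : 0 < Hm a b := lt_of_lt_of_le (Real.exp_pos _) hge
      have hl1 : Real.exp 1 ≤ Real.log (Hm a b) := by
        rw [Real.le_log_iff_exp_le hpos]
        exact hge
      have hl0 : 0 < Real.log (Hm a b) := lt_of_lt_of_le (Real.exp_pos _) hl1
      have hl2 : 1 ≤ Real.log (Real.log (Hm a b)) := by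
        rw [Real.le_log_iff_exp_le hl0]
        exact hl1
      have hq : 0 ≤ Real.log (Hm a b) / Real.log (Real.log (Hm a b)) :=
        div_nonneg hl0.le (by linarith)
      have h3 : κ * (Real.log (Hm a b) / Real.log (Real.log (Hm a b))) ≤
          max κ 1 * (Real.log (Hm a b) / Real.log (Real.log (Hm a b))) :=
        mul_le_mul_of_nonneg_right (le_max_left _ _) hq
      calc Hm a b * Real.exp (κ * (Real.log (Hm a b) / Real.log (Real.log (Hm a b))))
          = Real.exp (Real.log (Hm a b) +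
              κ * (Real.log (Hm a b) / Real.log (Real.log (Hm a b)))) := by
            rw [Real.exp_add, Real.exp_log hpos]
        _ < Real.exp (Real.log ((a + b : ℕ) : ℝ)) := Real.exp_lt_exp.mpr (by linarith)
        _ = _ := Real.exp_log hcr
  have := hM ⟨_, hmem, rfl⟩
  simp only at this
  omega

end Pool.Agent.Results.MP_14cf73_nt.ManyTriplesSmallH
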