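import Pool.Agent.V11265.HC.Fin
import Pool.Agent.H107.MetricFam

/-!
# The `H`-inequality near almost every point, real and `p`-adic

The problem asks whether `c < C(ε) H (abc) ^ (1 + ε)` for all admissible triples `a + b = c`. Let `M > 0` (for example
`M = 1`), `σ > 0` and let `p_1, ..., p_k` be primes. We consider the triples with `c ≤ T` which are at distance at
most `T ^ (-σ)` from a given point of `ℝ × ∏ ℤ_{p_i}²`, i.e. `|a / c - x| ≤ T ^ (-σ)` and `a`, `b` are in given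
residue classes modulo powers of `p_i` of size `≥ T ^ σ`. For all points outside of a set of Hausdorff dimension at
most `2 / (3 M σ)` (the whole space has dimension `2 k + 1`), and all `M' > M`, all these triples satisfy
`c < H (abc) ^ M'` as soon as `T` is large. For `k = 0` this concerns the triples with `a / c` close to a real number. The same
holds without the real coordinate (in a space of dimension `2 k`).

The proof uses the bound `O (X ^ (2 / (3 M) + δ))` for the number of exceptional triples with `c ≤ X` (result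
`ExceptionsByHeight` of helper265, module `Pool.Agent.V11265.HC`) and the covering argument
`Pool.Agent.H107.ME.dim_family`.
-/

set_option autoImplicit false

open Filter Topology

namespace Pool.Agent.Results.MP_14cf73_nt.TriplesNearPoints

/-- the radical `γ (n)`: the product of the distinct primes dividing `n` -/
def gam (n : ℕ) : ℕ := ∏ p ∈ n.primeFactors, p

/-- `H (n) = γ (n) / (log γ (n)) ^ ω (n)`, with `H (1) = 1` -/
noncomputable def H (n : ℕ) : ℝ := (gam n : ℝ) / (Real.log (gam n)) ^ n.primeFactors.card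

/-- `(a, b, a + b)` is an admissible triple. -/
def Admissible (a b : ℕ) : Prop := 0 < a ∧ 0 < b ∧ Nat.gcd (Nat.gcd a b) (a + b) = 1

lemma H_nonneg (n : ℕ) : 0 ≤ H n := by
  unfold H
  refine div_nonneg (Nat.cast_nonneg _) (pow_nonneg (Real.log_natCast_nonneg _) _)

/-- the exceptional triples -/
def Bad (M : ℝ) : Set (ℕ × ℕ) :=
  {p | Admissible p.1 p.2 ∧ H (p.1 * p.2 * (p.1 + p.2)) ^ M ≤ ((p.1 + p.2 : ℕ) : ℝ)}

/-- the height -/
noncomputable def ht (p : ℕ × ℕ) : ℝ := max 1 ((p.1 + p.2 : ℕ) : ℝ)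

lemma ht_eq {p : ℕ × ℕ} (h : Admissible p.1 p.2) : ht p = ((p.1 + p.2 : ℕ) : ℝ) := by
  unfold ht
  refine max_eq_right ?_
  have h1 := h.1
  exact_mod_cast (by omega : 1 ≤ p.1 + p.2)

/-- the count -/
theorem count (M δ : ℝ) (hM : 0 < M) (hδ : 0 < δ) : ∃ C : ℝ, 0 < C ∧ ∀ X : ℝ, 1 ≤ X →
    {p | p ∈ Bad M ∧ ht p ≤ X}.Finite ∧ ({p | p ∈ Bad M ∧ ht p ≤ X}.ncard : ℝ) ≤ C * X ^ (2 / (3 * M) + δ) := by
  obtain ⟨C, hC, h⟩ := Pool.Agent.V11265.HC.small 3 1 M δ (by norm_num) (by norm_num) hM hδ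
  refine ⟨C, hC, fun X hX => ?_⟩
  have h1 := h X hX {p | p ∈ Bad M ∧ ht p ≤ X} (by
    rintro p ⟨⟨⟨h1, h2, h3⟩, h5⟩, h4⟩
    rw [ht_eq ⟨h1, h2, h3⟩] at h4
    have hg : Nat.Coprime p.1 p.2 := by
      have : Nat.gcd p.1 p.2 ∣ Nat.gcd (Nat.gcd p.1 p.2) (p.1 + p.2) :=
        Nat.dvd_gcd dvd_rfl (dvd_add (Nat.gcd_dvd_left _ _) (Nat.gcd_dvd_right _ _))
      rw [h3] at this
      exact Nat.dvd_one.mp this
    refine ⟨h1, h2, hg, ?_, by simpa using h4, h5⟩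
    have h6 := Pool.Agent.V11265.HC.gam_lt h1 h2
    have hc : (0 : ℝ) < ((p.1 + p.2 : ℕ) : ℝ) := by exact_mod_cast (by omega : 0 < p.1 + p.2)
    have hg0 : (0 : ℝ) < Pool.Agent.V11265.HC.gam (p.1 * p.2 * (p.1 + p.2)) := by
      exact_mod_cast Pool.Agent.V11265.HC.gam_pos _
    calc Real.log (Pool.Agent.V11265.HC.gam (p.1 * p.2 * (p.1 + p.2)))
        ≤ Real.log (((p.1 + p.2 : ℕ) : ℝ) ^ 3) :=
          Real.log_le_log hg0 (by exact_mod_cast h6.le)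
      _ = 3 * Real.log ((p.1 + p.2 : ℕ) : ℝ) := by
          rw [Real.log_pow]
          norm_num
      _ ≤ 3 * Real.log X := by
          have := Real.log_le_log hc h4
          linarith)
  have e : 2 * 1 / (3 * M) + δ = 2 / (3 * M) + δ := by ring
  rw [e] at h1
  exact h1

/-- a smaller exponent gives a weaker violation -/
lemma bad_mono {M M' : ℝ} (hM : 0 < M) (hMM : M ≤ M') : Bad M' ⊆ Bad M := by
  rintro p ⟨h1, h2⟩
  refine ⟨h1, ?_⟩
  have hH := H_nonneg (p.1 * p.2 * (p.1 + p.2))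
  rcases le_total 1 (H (p.1 * p.2 * (p.1 + p.2))) with h | h
  · exact (Real.rpow_le_rpow_of_exponent_le h hMM).trans h2
  · refine (Real.rpow_le_one hH h hM.le).trans ?_
    have h3 := h1.1
    exact_mod_cast (by omega : 1 ≤ p.1 + p.2)

/-- maps of the triples to a metric space -/
theorem metric {Y : Type*} [MetricSpace Y] (φ : ℕ × ℕ → Y) {M σ : ℝ} (hM : 0 < M) (hσ : 0 < σ) :
    ∃ E : Set Y, dimH E ≤ ENNReal.ofReal (2 / (3 * M * σ)) ∧ ∀ α ∉ E, ∀ M' > M, ∃ T₀ : ℝ, ∀ T ≥ T₀,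
      ∀ a b : ℕ, Admissible a b → ((a + b : ℕ) : ℝ) ≤ T → dist (φ (a, b)) α ≤ T ^ (-σ) →
        ((a + b : ℕ) : ℝ) < H (a * b * (a + b)) ^ M' := by
  classical
  have hMj : ∀ j : ℕ, M < M + 1 / ((j : ℝ) + 1) := fun j => by
    have : (0 : ℝ) < 1 / ((j : ℝ) + 1) := by positivity
    linarith
  obtain ⟨E, hE1, hE2⟩ := Pool.Agent.H107.ME.dim_family φ ht (fun t => le_max_left _ _)
    (s := 2 / (3 * M)) (by positivity) hσ (fun j : ℕ => Bad (M + 1 / ((j : ℝ) + 1))) (fun j ε hε => by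
      obtain ⟨C, hC, h⟩ := count (M + 1 / ((j : ℝ) + 1)) ε (hM.trans (hMj j)) hε
      refine ⟨C, fun X hX => ⟨(h X hX).1, (h X hX).2.trans ?_⟩⟩
      refine mul_le_mul_of_nonneg_left (Real.rpow_le_rpow_of_exponent_le hX ?_) hC.le
      have h3 : 2 / (3 * (M + 1 / ((j : ℝ) + 1))) ≤ 2 / (3 * M) :=
        div_le_div_of_nonneg_left (by norm_num) (by positivity) (by linarith [hMj j])
      linarith)
  refine ⟨E ∪ Set.range φ, ?_, fun α hα M' hM' => ?_⟩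
  · rw [dimH_union, (Set.countable_range φ).dimH_zero]
    refine max_le (hE1.trans (le_of_eq ?_)) bot_le
    congr 1
    field_simp
  rw [Set.mem_union, not_or] at hα
  obtain ⟨j, hj⟩ := exists_nat_one_div_lt (sub_pos.2 hM')
  have hfin := hE2 α hα.1 j
  have hne : ∀ t ∈ {t | t ∈ Bad (M + 1 / ((j : ℝ) + 1)) ∧ dist (φ t) α ≤ (ht t) ^ (-σ)},
      ∀ᶠ T : ℝ in atTop, T ^ (-σ) < dist (φ t) α := by
    intro t _
    have h1 : 0 < dist (φ t) α := dist_pos.2 fun h2 => hα.2 ⟨t, h2⟩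
    exact (tendsto_rpow_neg_atTop hσ).eventually (gt_mem_nhds h1)
  obtain ⟨T₀, hT₀⟩ := eventually_atTop.1 ((Filter.eventually_all_finite hfin).2 hne)
  refine ⟨max T₀ 1, fun T hT a b hab haT hd => ?_⟩
  by_contra hcon
  push Not at hcon
  have hT1 : 1 ≤ T := (le_max_right _ _).trans hT
  have hbad : ((a, b) : ℕ × ℕ) ∈ Bad (M + 1 / ((j : ℝ) + 1)) :=
    bad_mono (M' := M') (hM.trans (hMj j)) (by linarith) ⟨hab, hcon⟩
  have hle : ht (a, b) ≤ T := by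
    rw [ht_eq (p := (a, b)) hab]
    exact haT
  have hpos : 0 < ht (a, b) := lt_of_lt_of_le one_pos (le_max_left _ _)
  have hmem : (a, b) ∈ {t | t ∈ Bad (M + 1 / ((j : ℝ) + 1)) ∧ dist (φ t) α ≤ (ht t) ^ (-σ)} :=
    ⟨hbad, hd.trans (Real.rpow_le_rpow_of_nonpos hpos hle (by linarith))⟩
  have h3 := hT₀ T ((le_max_left _ _).trans hT) (a, b) hmem
  linarith

/-- **The `H`-inequality near almost every point.** -/
theorem result {k : ℕ} (p : Fin k → ℕ) [∀ i, Fact (p i).Prime] (M σ : ℝ) (hM : 0 < M) (hσ : 0 < σ) :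
    (∃ E : Set (ℝ × ∀ i, ℤ_[p i] × ℤ_[p i]), dimH E ≤ ENNReal.ofReal (2 / (3 * M * σ)) ∧
      ∀ x α, (x, α) ∉ E → ∀ M' > M, ∃ T₀ : ℝ, ∀ T ≥ T₀, ∀ a b : ℕ, Admissible a b → ((a + b : ℕ) : ℝ) ≤ T →
        |(a : ℝ) / ((a + b : ℕ) : ℝ) - x| ≤ T ^ (-σ) →
        (∀ i, ‖(a : ℤ_[p i]) - (α i).1‖ ≤ T ^ (-σ) ∧ ‖(b : ℤ_[p i]) - (α i).2‖ ≤ T ^ (-σ)) →
          ((a + b : ℕ) : ℝ) < H (a * b * (a + b)) ^ M') ∧
    (∃ E : Set (∀ i, ℤ_[p i] × ℤ_[p i]), dimH E ≤ ENNReal.ofReal (2 / (3 * M * σ)) ∧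
      ∀ α ∉ E, ∀ M' > M, ∃ T₀ : ℝ, ∀ T ≥ T₀, ∀ a b : ℕ, Admissible a b → ((a + b : ℕ) : ℝ) ≤ T →
        (∀ i, ‖(a : ℤ_[p i]) - (α i).1‖ ≤ T ^ (-σ) ∧ ‖(b : ℤ_[p i]) - (α i).2‖ ≤ T ^ (-σ)) →
          ((a + b : ℕ) : ℝ) < H (a * b * (a + b)) ^ M') := by
  constructor
  · obtain ⟨E, hE1, hE2⟩ := metric (Y := ℝ × ∀ i, ℤ_[p i] × ℤ_[p i])
      (fun t => ((t.1 : ℝ) / ((t.1 + t.2 : ℕ) : ℝ), fun i => ((t.1 : ℤ_[p i]), (t.2 : ℤ_[p i])))) hM hσ
    refine ⟨E, hE1, fun x α hα M' hM' => ?_⟩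
    obtain ⟨T₀, hT₀⟩ := hE2 _ hα M' hM'
    refine ⟨max T₀ 1, fun T hT a b hab haT hx hp => ?_⟩
    have hT1 : 0 < T := lt_of_lt_of_le one_pos ((le_max_right _ _).trans hT)
    have hr : 0 ≤ T ^ (-σ) := Real.rpow_nonneg hT1.le _
    refine hT₀ T ((le_max_left _ _).trans hT) a b hab haT ?_
    rw [Prod.dist_eq]
    refine max_le ?_ ((dist_pi_le_iff hr).2 fun i => ?_)
    · rw [Real.dist_eq]
      exact hx
    · rw [Prod.dist_eq]
      simp only [dist_eq_norm]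
      exact max_le (hp i).1 (hp i).2
  · obtain ⟨E, hE1, hE2⟩ := metric (Y := ∀ i, ℤ_[p i] × ℤ_[p i])
      (fun t i => ((t.1 : ℤ_[p i]), (t.2 : ℤ_[p i]))) hM hσ
    refine ⟨E, hE1, fun α hα M' hM' => ?_⟩
    obtain ⟨T₀, hT₀⟩ := hE2 _ hα M' hM'
    refine ⟨max T₀ 1, fun T hT a b hab haT hp => ?_⟩
    have hT1 : 0 < T := lt_of_lt_of_le one_pos ((le_max_right _ _).trans hT)
    have hr : 0 ≤ T ^ (-σ) := Real.rpow_nonneg hT1.le _
    refine hT₀ T ((le_max_left _ _).trans hT) a b hab haT ?_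
    refine (dist_pi_le_iff hr).2 fun i => ?_
    rw [Prod.dist_eq]
    simp only [dist_eq_norm]
    exact max_le (hp i).1 (hp i).2

end Pool.Agent.Results.MP_14cf73_nt.TriplesNearPoints
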